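import Pool.Agent.Helper22_DEN2.Stmt

/-!
# Squad DEN2, module FRE: `Γ(M)` acts freely on the orbit of the base point
-/

set_option autoImplicit false

open scoped BigOperators

namespace Pool.Agent.DEN.H422

open Pool.Agent.DEN

section
variable {r : ℕ} {C : Matrix (Fin r) (Fin r) ℤ} {K : Type} [Field K]

/-- an element of the arithmetic group fixing the base point is in the maximal compact group -/
theorem mem_maxK_of_fix {g : grp C K} (h : g • pt (1 : grp C K) = pt (1 : grp C K)) :
    g ∈ maxK C K := by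
  have h4 : (QuotientGroup.mk (g * 1) : XX C K) = QuotientGroup.mk 1 := h
  have h5 := QuotientGroup.eq.1 h4.symm
  simpa using h5

end

/-- (FRE) -/
theorem fre : FreStmt := by
  intro r C hC K _ M hM γ hγ g hg hfix
  have hfin : Finite (Rt C) := H22.hRF r C hC
  obtain ⟨hinj, -, h23, -, h25⟩ := H22.hF2 K
  obtain ⟨h10, h1add, h1neg, -, -, h1z, -, -, -⟩ := H22.hF1 K
  have h11 : (1 : FF K) ∈ Bd K 0 := by
    have := h1z 1
    rwa [Int.cast_one] at this
  obtain ⟨-, -, hb3⟩ := H22.hBdg r C hC K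
  have hh : γ⁻¹ * g * γ ∈ cong C K 1 M := by
    have := H63.conj_cong hC (inv_mem hγ) hg
    rwa [inv_inv] at this
  have hk : γ⁻¹ * g * γ ∈ maxK C K := by
    apply mem_maxK_of_fix
    rw [mul_smul, mul_smul, hfix, inv_smul_smul]
  have hone : γ⁻¹ * g * γ = 1 := by
    generalize γ⁻¹ * g * γ = h at hh hk
    apply H63.ext_bas
    intro i
    have hbd := ((hb3 h).1 hk).1 _ (H63.bas_mem (C := C) (Bd K 0) (h10 0) h11 i)
    have hbb := H63.bas_mem (C := C) (Bd K 0) (h10 0) h11 i
    have hcg := hh.2.1 _ (H63.bas_mem (C := C) _ (zero_mem (ringA K 1)) (one_mem (ringA K 1)) i)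
    have key : ∀ a b : FF K, a ∈ Bd K 0 → b ∈ Bd K 0 →
        (∃ c ∈ ringA K 1, a - b = polyL K M * c) → a = b := by
      rintro a b ha hb ⟨c, hc, hc'⟩
      have hc2 : c ∈ Set.range (polyL K) := by
        rw [← h25]
        exact hc
      obtain ⟨p, rfl⟩ := hc2
      have h1 : polyL K (M * p) ∈ Bd K 0 := by
        rw [map_mul, ← hc', sub_eq_add_neg]
        exact h1add 0 _ _ ha (h1neg 0 _ hb)
      by_cases hp : p = 0
      · rw [hp, map_zero, mul_zero] at hc'
        exact sub_eq_zero.1 hc'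
      · exfalso
        have hM0 : M ≠ 0 := by
          rintro rfl
          simp at hM
        have h2 := h23 (M * p) 0 (mul_ne_zero hM0 hp) h1
        rw [Polynomial.natDegree_mul hM0 hp] at h2
        push_cast at h2
        omega
    have e : ((1 : grp C K)).1 (H63.bas C K i) = H63.bas C K i := rfl
    rw [e]
    refine Prod.ext ?_ ?_
    · funext j
      exact key _ _ (hbd.1 j) (hbb.1 j) (hcg.1 j)
    · funext j
      exact key _ _ (hbd.2 j) (hbb.2 j) (hcg.2 j)
  have e2 : g = γ * (γ⁻¹ * g * γ) * γ⁻¹ := by group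
  rw [e2, hone]
  group

end Pool.Agent.DEN.H422
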