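import Pool.Agent.Helper42_DEN2.Fre

/-!
# Squad DEN2, module IDX: bounds for the indices
-/

set_option autoImplicit false

open scoped BigOperators

namespace Pool.Agent.DEN.H422

open Pool.Agent.DEN

section
variable {r : ℕ} {C : Matrix (Fin r) (Fin r) ℤ} {K : Type} [Field K]

/-- all coordinates of a vector -/
def cv (v : LieV C (FF K)) : Fin r ⊕ Rt C → FF K := Sum.elim v.1 v.2

theorem cv_mem {S : Set (FF K)} {v : LieV C (FF K)} (hv : Cd S v) (x : Fin r ⊕ Rt C) :
    cv v x ∈ S := by
  rcases x with x | x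
  · exact hv.1 x
  · exact hv.2 x

theorem of_cv {S : Set (FF K)} {v : LieV C (FF K)} (h : ∀ x, cv v x ∈ S) : Cd S v :=
  ⟨fun i => h (Sum.inl i), fun γ => h (Sum.inr γ)⟩

theorem ext_cv {v w : LieV C (FF K)} (h : ∀ x, cv v x = cv w x) : v = w :=
  Prod.ext (funext fun i => h (Sum.inl i)) (funext fun γ => h (Sum.inr γ))

theorem cv_sub (v w : LieV C (FF K)) (x : Fin r ⊕ Rt C) : cv (v - w) x = cv v x - cv w x := by
  rcases x with x | x <;> rfl

theorem cv_smul (c : FF K) (v : LieV C (FF K)) (x : Fin r ⊕ Rt C) :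
    cv (c • v) x = c * cv v x := by
  rcases x with x | x <;> rfl

/-- the polynomial of an element of `K[t]` -/
noncomputable def pol (a : FF K) : Polynomial K := by
  classical exact if h : ∃ p : Polynomial K, polyL K p = a then h.choose else 0

theorem pol_spec {a : FF K} (ha : a ∈ Set.range (polyL K)) : polyL K (pol a) = a := by
  have h : ∃ p : Polynomial K, polyL K p = a := ha
  unfold pol
  rw [dif_pos h]
  exact h.choose_spec

omit [Field K] in
theorem card_target (n : ℕ) [Finite K] [Finite (Rt C)] :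
    Nat.card ((Fin r ⊕ Rt C) × (Fin r ⊕ Rt C) → (Fin n → K)) =
      Nat.card K ^ (n * (r + Nat.card (Rt C)) ^ 2) := by
  rw [Nat.card_fun, Nat.card_fun, Nat.card_prod, Nat.card_sum, Nat.card_fin, Nat.card_fin,
    ← pow_mul, sq]

omit [Field K] in
theorem card_target' [Finite K] [Finite (Rt C)] :
    Nat.card ((Fin r ⊕ Rt C) × (Fin r ⊕ Rt C) → K) =
      Nat.card K ^ (r + Nat.card (Rt C)) ^ 2 := by
  rw [Nat.card_fun, Nat.card_prod, Nat.card_sum, Nat.card_fin, sq]

/-- the reduced displacement -/
noncomputable def uu (M : Polynomial K) (g : grp C K) (b : Fin r ⊕ Rt C) : LieV C (FF K) :=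
  (polyL K M)⁻¹ • (g.1 (H63.bas C K b) - H63.bas C K b)

theorem uu_spec {M : Polynomial K} (hM : polyL K M ≠ 0) (g : grp C K) (b : Fin r ⊕ Rt C) :
    polyL K M • uu M g b = g.1 (H63.bas C K b) - H63.bas C K b := by
  unfold uu
  rw [smul_smul, mul_inv_cancel₀ hM, one_smul]

theorem uu_mem {M : Polynomial K} (hM : polyL K M ≠ 0) {g : grp C K} (hg : g ∈ cong C K 1 M)
    (b : Fin r ⊕ Rt C) : Cd (ringA K 1 : Set (FF K)) (uu M g b) := by
  have hcg := hg.2.1 _ (H63.bas_mem (C := C) _ (zero_mem (ringA K 1)) (one_mem (ringA K 1)) b)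
  obtain ⟨u, hu, hu'⟩ := H63.Cd_N hcg
  have : uu M g b = u := by
    unfold uu
    rw [hu', smul_smul, inv_mul_cancel₀ hM, one_smul]
  rw [this]
  exact hu

end

/-- (IDX) -/
theorem idx : IdxStmt := by
  intro r C hC K _ _
  have hfin : Finite (Rt C) := H22.hRF r C hC
  obtain ⟨hinj, -, h23, -, h25⟩ := H22.hF2 K
  obtain ⟨h10, h1add, h1neg, -, -, h1z, -, -, -⟩ := H22.hF1 K
  have h11 : (1 : FF K) ∈ Bd K 0 := by
    have := h1z 1
    rwa [Int.cast_one] at this
  obtain ⟨-, -, hb3⟩ := H22.hBdg r C hC K
  have hrange : ∀ a : FF K, a ∈ ringA K 1 → a ∈ Set.range (polyL K) := by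
    intro a ha
    rw [← h25]
    exact ha
  constructor
  · intro P M hP hM _
    have hM' : polyL K M ≠ 0 := fun h => hM (hinj (by rw [h, map_zero]))
    set N' := (cong C K 1 (M * P ^ 2)).subgroupOf (cong C K 1 M) with hN'
    let φ : (cong C K 1 M) ⧸ N' →
        ((Fin r ⊕ Rt C) × (Fin r ⊕ Rt C) → (Fin (2 * P.natDegree) → K)) :=
      fun q x j => (pol (cv (uu M q.out.1 x.1) x.2) % P ^ 2).coeff j
    have hφ : Function.Injective φ := by
      intro q q' hqq
      have h4 : q.out.1⁻¹ * q'.out.1 ∈ cong C K 1 (M * P ^ 2) := by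
        apply H63.cong_of_bas hC q.out.2.1 q'.out.2.1
        intro i
        have e1 := uu_mem hM' q.out.2 i
        have e2 := uu_mem hM' q'.out.2 i
        have h5 : ∀ x, ∃ c ∈ ringA K 1,
            cv (uu M q.out.1 i - uu M q'.out.1 i) x = polyL K (P ^ 2) * c := by
          intro x
          have f1 := pol_spec (hrange _ (cv_mem e1 x))
          have f2 := pol_spec (hrange _ (cv_mem e2 x))
          have h6 : pol (cv (uu M q.out.1 i) x) % P ^ 2 = pol (cv (uu M q'.out.1 i) x) % P ^ 2 := by
            have hP2 : P ^ 2 ≠ 0 := pow_ne_zero 2 hP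
            have hdeg : ∀ p : Polynomial K, ∀ n, 2 * P.natDegree ≤ n → (p % P ^ 2).coeff n = 0 := by
              intro p n hn
              apply Polynomial.coeff_eq_zero_of_degree_lt
              refine lt_of_lt_of_le (EuclideanDomain.mod_lt p hP2) ?_
              rw [Polynomial.degree_eq_natDegree hP2, Polynomial.natDegree_pow]
              exact_mod_cast hn
            ext n
            by_cases hn : n < 2 * P.natDegree
            · exact congrFun (congrFun hqq (i, x)) ⟨n, hn⟩
            · rw [hdeg _ n (by omega), hdeg _ n (by omega)]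
          have h7 : P ^ 2 ∣ pol (cv (uu M q.out.1 i) x) - pol (cv (uu M q'.out.1 i) x) := by
            have g1 := EuclideanDomain.div_add_mod (pol (cv (uu M q.out.1 i) x)) (P ^ 2)
            have g2 := EuclideanDomain.div_add_mod (pol (cv (uu M q'.out.1 i) x)) (P ^ 2)
            refine ⟨pol (cv (uu M q.out.1 i) x) / P ^ 2 - pol (cv (uu M q'.out.1 i) x) / P ^ 2, ?_⟩
            rw [h6] at g1
            linear_combination g2 - g1
          obtain ⟨c, hc⟩ := h7
          refine ⟨polyL K c, H63.polyL_mem 1 c, ?_⟩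
          rw [cv_sub, ← f1, ← f2, ← map_sub, hc, map_mul]
        choose c hc hc' using h5
        refine ⟨(fun j => c (Sum.inl j), fun j => c (Sum.inr j)),
          ⟨fun j => hc _, fun j => hc _⟩, ?_⟩
        have e3 : q.out.1.1 (H63.bas C K i) - q'.out.1.1 (H63.bas C K i) =
            polyL K M • (uu M q.out.1 i - uu M q'.out.1 i) := by
          rw [smul_sub, uu_spec hM', uu_spec hM']
          abel
        rw [e3]
        apply ext_cv
        intro x
        rw [cv_smul, hc' x, cv_smul, map_mul, mul_assoc]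
        rcases x with x | x <;> rfl
      have h5 : (QuotientGroup.mk q.out : (cong C K 1 M) ⧸ N') = QuotientGroup.mk q'.out := by
        rw [QuotientGroup.eq]
        exact h4
      rwa [QuotientGroup.out_eq', QuotientGroup.out_eq'] at h5
    have h8 := Nat.card_le_card_of_injective φ hφ
    rw [card_target] at h8
    exact h8
  · let ψ : MulAction.stabilizer (arith C K 1) (pt (1 : grp C K)) →
        ((Fin r ⊕ Rt C) × (Fin r ⊕ Rt C) → K) :=
      fun s x => (pol (cv (s.1.1.1 (H63.bas C K x.1)) x.2)).coeff 0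
    have hψ : Function.Injective ψ := by
      intro s s' hss
      apply Subtype.ext
      apply Subtype.ext
      apply H63.ext_bas
      intro i
      have hk : ∀ s : MulAction.stabilizer (arith C K 1) (pt (1 : grp C K)),
          Cd (Bd K 0) (s.1.1.1 (H63.bas C K i)) ∧
            Cd (ringA K 1 : Set (FF K)) (s.1.1.1 (H63.bas C K i)) := by
        intro s
        refine ⟨?_, (H63.arith_int hC 1 s.1.2).1 _
          (H63.bas_mem (C := C) _ (zero_mem (ringA K 1)) (one_mem (ringA K 1)) i)⟩
        have h1 : s.1.1 ∈ maxK C K := mem_maxK_of_fix s.2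
        exact ((hb3 _).1 h1).1 _ (H63.bas_mem (C := C) (Bd K 0) (h10 0) h11 i)
      apply ext_cv
      intro x
      have h2 : ∀ s : MulAction.stabilizer (arith C K 1) (pt (1 : grp C K)),
          cv (s.1.1.1 (H63.bas C K i)) x = polyL K (Polynomial.C (ψ s (i, x))) := by
        intro s
        have f1 := pol_spec (hrange _ (cv_mem (hk s).2 x))
        have f2 : polyL K (pol (cv (s.1.1.1 (H63.bas C K i)) x)) ∈ Bd K 0 := by
          rw [f1]
          exact cv_mem (hk s).1 x
        have f3 : (pol (cv (s.1.1.1 (H63.bas C K i)) x)).natDegree = 0 := by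
          by_cases hp : pol (cv (s.1.1.1 (H63.bas C K i)) x) = 0
          · rw [hp, Polynomial.natDegree_zero]
          · have := h23 _ 0 hp f2
            omega
        have f4 := Polynomial.eq_C_of_natDegree_eq_zero f3
        change _ = polyL K (Polynomial.C ((pol (cv (s.1.1.1 (H63.bas C K i)) x)).coeff 0))
        rw [← f4, f1]
      rw [h2 s, h2 s', hss]
    have h8 := Nat.card_le_card_of_injective ψ hψ
    rw [card_target'] at h8
    exact h8

end Pool.Agent.DEN.H422
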